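import Pool.Agent.Helper60.HC.GoalsP
import Pool.Agent.Helper16.UN.HVB

/-!
# Project HC (MP_a41896_nt), packet PRJ: projections
-/

set_option autoImplicit false

open MvPolynomial

namespace Pool.Agent.Helper61.HC.PRJ

open WeierstrassCurve Height Height.AdmissibleAbsValues
open Pool.Agent.Helper29.BL Pool.Agent.Helper92.Ru Pool.Agent.Helper42.SG
open Pool.Agent.Helper5.UN (hv CodimGT cH)
open Pool.Agent.Helper60.HC

noncomputable section

/-- polynomials in the variables of `J` -/
lemma exists_ren {K σ : Type} [Field K] (J : Finset σ) (P : MvPolynomial σ K)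
    (hP : ∀ i, i ∉ J → P.degreeOf i = 0) :
    ∃ Q : MvPolynomial {j // j ∈ J} K, rename Subtype.val Q = P := by
  classical
  refine exists_rename_eq_of_vars_subset_range P Subtype.val Subtype.val_injective ?_
  intro i hi
  by_contra h
  have h1 : i ∉ J := fun h2 => h ⟨⟨i, h2⟩, rfl⟩
  have h2 := hP i h1
  rw [degreeOf_def, Multiset.count_eq_zero] at h2
  apply h2
  have h3 : i ∈ P.vars := hi
  rwa [vars_def, Multiset.mem_toFinset] at h3

open scoped IntermediateField.algebraAdjoinAdjoin in
/-- either few elements generate, or all but one are algebraically independent -/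
lemma trb {K Ω : Type} [Field K] [Field Ω] [Algebra K Ω] {τ : Type} [Fintype τ] [DecidableEq τ]
    (u : τ → Ω) (hτ : 1 ≤ Fintype.card τ) :
    (∃ T : Finset Ω, T.card + 1 < Fintype.card τ ∧
      ∀ i, IsAlgebraic (IntermediateField.adjoin K (T : Set Ω)) (u i)) ∨
    ∃ i₀ : τ, AlgebraicIndependent K (fun j : {j : τ // j ≠ i₀} => u j.1) := by
  classical
  obtain ⟨B, hB⟩ := (AlgebraicIndependent.matroid K Ω).exists_isBasis (Set.range u)
  rw [AlgebraicIndependent.matroid_isBasis_iff] at hB
  obtain ⟨hind, hsub, halg⟩ := hB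
  have hfin : B.Finite := (Set.finite_range u).subset hsub
  set T : Finset Ω := hfin.toFinset with hT
  have hTB : (T : Set Ω) = B := hfin.coe_toFinset
  by_cases hc : T.card + 1 < Fintype.card τ
  · refine Or.inl ⟨T, hc, fun i => ?_⟩
    rw [hTB]
    have h1 := halg (u i) ⟨i, rfl⟩
    exact (IsFractionRing.isAlgebraic_iff (Algebra.adjoin K B)
      (IntermediateField.adjoin K B) Ω).mp h1
  · right
    have hne : Nonempty τ := Fintype.card_pos_iff.mp (by omega)
    have hex : ∀ t ∈ T, ∃ i, u i = t := by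
      intro t ht
      have h1 : t ∈ B := by rw [← hTB]; exact ht
      exact hsub h1
    choose! g hg using hex
    set S : Finset τ := T.image g with hS
    have hcS : S.card = T.card := by
      refine Finset.card_image_of_injOn fun a ha b hb hab => ?_
      rw [← hg a ha, ← hg b hb, hab]
    have hcc : Sᶜ.card ≤ 1 := by
      rw [Finset.card_compl]
      omega
    have hi0 : ∃ i₀ : τ, ∀ j, j ≠ i₀ → j ∈ S := by
      rcases Finset.card_le_one_iff_subset_singleton.mp hcc with h
      obtain ⟨i₀, hi₀⟩ := h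
      refine ⟨i₀, fun j hj => ?_⟩
      by_contra h2
      exact hj (Finset.mem_singleton.mp (hi₀ (Finset.mem_compl.mpr h2)))
    obtain ⟨i₀, hi₀⟩ := hi0
    refine ⟨i₀, ?_⟩
    have hgu : ∀ j, j ∈ S → u j ∈ T ∧ g (u j) = j := by
      intro j hj
      obtain ⟨t, ht, rfl⟩ := Finset.mem_image.mp hj
      rw [hg t ht]
      exact ⟨ht, rfl⟩
    have hmem : ∀ j : {j : τ // j ≠ i₀}, u j.1 ∈ B := by
      intro j
      rw [← hTB]
      exact (hgu j.1 (hi₀ j.1 j.2)).1
    have hinj : Function.Injective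
        (fun j : {j : τ // j ≠ i₀} => (⟨u j.1, hmem j⟩ : B)) := by
      intro j j' h
      have h1 : u j.1 = u j'.1 := congrArg Subtype.val h
      apply Subtype.ext
      rw [← (hgu j.1 (hi₀ j.1 j.2)).2, ← (hgu j'.1 (hi₀ j'.1 j'.2)).2, h1]
    have h2 : AlgebraicIndependent K (fun b : B => (b : Ω)) := hind
    exact h2.comp _ hinj

/-- the value of `rename Q * X_i^k` -/
lemma hv_ne {K Ω : Type} [Field K] [Field Ω] [Algebra K Ω] {τ ρ : Type} [Fintype τ]
    [DecidableEq τ] (E : ℕ) (y : τ → Fin 2 → Ω) (hy : ∀ i, y i 1 = 1 ∨ y i = ![1, 0]) (i₀ : τ)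
    (hind : AlgebraicIndependent K (fun j : {j : τ // j ≠ i₀} => y j.1 0)) (e : ρ → τ)
    (he : ∀ j, e j ≠ i₀) (hinj : Function.Injective e) (Q : MvPolynomial ρ K) (hQ : Q ≠ 0)
    (hd : ∀ i, degreeOf i (rename e Q * X i₀ ^ E) ≤ E) :
    hv (algebraMap K Ω) (fun _ => E) (rename e Q) y ≠ 0 ∨
      hv (algebraMap K Ω) (fun _ => E) (rename e Q * X i₀ ^ E) y ≠ 0 := by
  classical
  have hone : ∀ j, j ≠ i₀ → y j 1 = 1 := by
    intro j hj
    rcases hy j with h | h
    · exact h
    · exfalso
      have h1 := hind.transcendental ⟨j, hj⟩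
      apply h1
      simp only [h, Matrix.cons_val_zero]
      exact isAlgebraic_one
  have hu : AlgebraicIndependent K (fun j : ρ => y (e j) 0) :=
    hind.comp (fun j : ρ => (⟨e j, he j⟩ : {j : τ // j ≠ i₀}))
      (fun a b h => hinj (congrArg Subtype.val h))
  have hne : aeval (fun j : ρ => y (e j) 0) Q ≠ 0 := fun h =>
    hQ (algebraicIndependent_iff.mp hu Q h)
  have hHVB := Pool.Agent.Helper16.UN.gHVB
  obtain ⟨-, -, -, h4, -⟩ := hHVB
  have key : ∀ (y' : τ → Fin 2 → Ω) (f : MvPolynomial τ K), (∀ i, y' i 1 = 1) →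
      hv (algebraMap K Ω) (fun _ => E) f y' = aeval (fun i => y' i 0) f := by
    intro y' f h
    have h5 : y' = fun i => ![y' i 0, 1] := by
      funext i j
      fin_cases j
      · rfl
      · exact h i
    conv_lhs => rw [h5]
    rw [h4, aeval_def]
  rcases hy i₀ with h | h
  · left
    rw [key y _ (fun i => if hi : i = i₀ then by rw [hi]; exact h else hone i hi), aeval_rename]
    exact hne
  · right
    set y' : τ → Fin 2 → Ω := Function.update y i₀ ![1, 1] with hy'
    have hyy : hv (algebraMap K Ω) (fun _ => E) (rename e Q * X i₀ ^ E) y =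
        hv (algebraMap K Ω) (fun _ => E) (rename e Q * X i₀ ^ E) y' := by
      unfold hv
      refine Finset.sum_congr rfl fun m hm => ?_
      congr 1
      refine Finset.prod_congr rfl fun i _ => ?_
      by_cases hi : i = i₀
      · subst hi
        have h1 : m i ≤ E := Pool.Agent.Helper16.UN.deg_le' (E := fun _ => E) hd hm i
        have h2 : E ≤ m i := by
          rw [mem_support_iff, X_pow_eq_monomial, coeff_mul_monomial'] at hm
          by_contra h3
          apply hm
          rw [if_neg]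
          intro h5
          exact h3 (by simpa using h5 i)
        have h3 : E - m i = 0 := by omega
        simp only [hy', Function.update_self, h, h3, pow_zero, mul_one]
        simp
      · simp only [hy', Function.update_of_ne hi]
    rw [hyy, key y' _ (fun i => ?_), map_mul, map_pow, aeval_X, aeval_rename]
    · have h6 : ((fun i => y' i 0) ∘ e) = fun j => y (e j) 0 := by
        funext j
        simp only [Function.comp, hy', Function.update_of_ne (he j)]
      rw [h6]
      simp only [hy', Function.update_self, Matrix.cons_val_zero, one_pow, mul_one]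
      exact hne
    · by_cases hi : i = i₀
      · subst hi
        simp [hy']
      · simp only [hy', Function.update_of_ne hi]
        exact hone i hi

theorem t (h2 : S_ELOC2) (hC : S_CHB) : S_PRJ := by
  classical
  intro K _ _ σ _ _ s D ι _ f hdeg hcod I hI hI1
  obtain ⟨E, B, hE, hB, hJ⟩ := h2 K σ s D ι f hdeg hcod
  have hJ' : ∀ i : {i // i ∈ I}, ∃ P : MvPolynomial σ K, P ≠ 0 ∧ (∀ i, P.degreeOf i ≤ E) ∧
      (∀ j, j ∉ I.erase i.1 → P.degreeOf j = 0) ∧ ∀ (v : AbsoluteValue K ℝ) (x : σ → K),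
        v (eval x P) * (∏ i, Mv v (x i)) ^ D ≤
          B v * (∏ i ∈ I.erase i.1, Mv v (x i)) ^ E * ⨆ j, v (eval x (f j)) := by
    intro i
    refine hJ (I.erase i.1) ?_
    rw [Finset.card_erase_of_mem i.2]
    omega
  choose P hP0 hPE hPJ hPv using hJ'
  have hQ' : ∀ i : {i // i ∈ I}, ∃ Q : MvPolynomial {j // j ∈ I.erase i.1} K,
      rename Subtype.val Q = P i := fun i => exists_ren _ _ (hPJ i)
  choose Q hQ using hQ'
  have hQ0 : ∀ i, Q i ≠ 0 := by
    intro i h
    apply hP0 i
    rw [← hQ i, h, map_zero]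
  -- the inclusion
  set em : ∀ i : {i // i ∈ I}, {j // j ∈ I.erase i.1} → {j // j ∈ I} :=
    fun i j => ⟨j.1, Finset.mem_of_mem_erase j.2⟩ with hem
  have hemi : ∀ i, Function.Injective (em i) := by
    intro i a b h
    have h1 : (em i a).1 = (em i b).1 := by rw [h]
    exact Subtype.ext h1
  have hemn : ∀ i j, em i j ≠ i := by
    intro i j h
    have h1 : j.1 = i.1 := congrArg Subtype.val h
    exact (Finset.mem_erase.mp j.2).1 h1
  have hemr : ∀ i, rename Subtype.val (rename (em i) (Q i)) = P i := by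
    intro i
    rw [rename_rename, ← hQ i]
    rfl
  have hdQ : ∀ i j, degreeOf j (rename (em i) (Q i)) = degreeOf j.1 (P i) := by
    intro i j
    rw [← hemr i, degreeOf_rename_of_injective Subtype.val_injective]
  have hdQi : ∀ i, degreeOf i (rename (em i) (Q i)) = 0 := by
    intro i
    rw [hdQ]
    exact hPJ i i.1 (Finset.notMem_erase _ _)
  set f' : ({i // i ∈ I} × Bool) → MvPolynomial {i // i ∈ I} K :=
    fun a => rename (em a.1) (Q a.1) * X a.1 ^ (if a.2 then E else 0) with hf'
  have hdf : ∀ (i j : {i // i ∈ I}) (k : ℕ), k ≤ E →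
      degreeOf j (rename (em i) (Q i) * X i ^ k) ≤ E := by
    intro i j k hk
    by_cases hij : j = i
    · subst hij
      refine (degreeOf_mul_le _ _ _).trans ?_
      rw [hdQi, zero_add]
      refine (degreeOf_pow_le _ _ _).trans ?_
      rw [degreeOf_X, if_pos rfl, mul_one]
      exact hk
    · rw [degreeOf_mul_X_pow_of_ne _ hij, hdQ]
      exact hPE i _
  have hdf' : ∀ j i, degreeOf i (f' j) ≤ E := by
    intro j i
    refine hdf j.1 i _ ?_
    split_ifs
    · exact le_rfl
    · exact Nat.zero_le _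
  have hev : ∀ (a : {i // i ∈ I} × Bool) (x : σ → K),
      eval (fun i : {i // i ∈ I} => x i.1) (f' a) =
        eval x (P a.1) * x a.1.1 ^ (if a.2 then E else 0) := by
    intro a x
    simp only [hf']
    rw [map_mul, map_pow, eval_X]
    congr 1
    rw [← hemr a.1, eval_rename, eval_rename, eval_rename]
    rfl
  -- nonzero `f j`
  obtain ⟨i₀, hi₀⟩ : I.Nonempty := Finset.card_pos.mp (by omega)
  set k₀ : {i // i ∈ I} := ⟨i₀, hi₀⟩ with hk₀
  have : Nonempty {i // i ∈ I} := ⟨k₀⟩
  have hfj : ∃ j, f j ≠ 0 := by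
    by_contra hcon
    push Not at hcon
    apply hP0 k₀
    apply MvPolynomial.funext
    intro x
    rw [map_zero]
    have h3 := hPv k₀ AbsoluteValue.trivial x
    have h4 : (⨆ j, (AbsoluteValue.trivial : AbsoluteValue K ℝ) (eval x (f j))) = 0 := by
      have h5 : (fun j => (AbsoluteValue.trivial : AbsoluteValue K ℝ) (eval x (f j))) =
          fun _ => 0 := by
        funext j
        rw [hcon j, map_zero, map_zero]
      rw [h5]
      exact Real.iSup_const_zero
    rw [h4, mul_zero] at h3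
    have h6 : 0 < (∏ i, Mv (AbsoluteValue.trivial : AbsoluteValue K ℝ) (x i)) ^ D :=
      pow_pos (Finset.prod_pos fun i _ => Mv_pos _ _) _
    have h7 : (AbsoluteValue.trivial : AbsoluteValue K ℝ) (eval x (P k₀)) ≤ 0 := by
      by_contra h8
      push Not at h8
      exact absurd h3 (not_le.mpr (mul_pos h8 h6))
    exact (AbsoluteValue.eq_zero _).mp (le_antisymm h7 (AbsoluteValue.nonneg _ _))
  obtain ⟨j₀, hj₀⟩ := hfj
  -- local comparison
  have hloc : ∀ (v : AbsoluteValue K ℝ) (x : σ → K),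
      rhs f' E v (fun i : {i // i ∈ I} => x i.1) ≤ B v * rhs f D v x := by
    intro v x
    have hM : 0 < (∏ i, Mv v (x i)) ^ D := pow_pos (Finset.prod_pos fun i _ => Mv_pos _ _) _
    have hMI : 0 < (∏ i : {i // i ∈ I}, Mv v (x i.1)) ^ E :=
      pow_pos (Finset.prod_pos fun i _ => Mv_pos _ _) _
    have hB1 := hB.one_le v
    have hB0 : 0 < B v := lt_of_lt_of_le one_pos hB1
    have hprodI : (∏ i : {i // i ∈ I}, Mv v (x i.1)) = ∏ i ∈ I, Mv v (x i) :=
      Finset.prod_coe_sort I (fun i => Mv v (x i))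
    have h3 : (⨆ j, v (eval (fun i : {i // i ∈ I} => x i.1) (f' j))) *
        (∏ i, Mv v (x i)) ^ D ≤
        B v * (∏ i : {i // i ∈ I}, Mv v (x i.1)) ^ E * ⨆ j, v (eval x (f j)) := by
      obtain ⟨a, ha⟩ := exists_eq_ciSup_of_finite
        (f := fun j => v (eval (fun i : {i // i ∈ I} => x i.1) (f' j)))
      rw [← ha, hev, map_mul, map_pow]
      have h4 := hPv a.1 v x
      have h5 : v (x a.1.1) ^ (if a.2 then E else 0) ≤ Mv v (x a.1.1) ^ E := by
        have h6 : v (x a.1.1) ≤ Mv v (x a.1.1) := le_max_right _ _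
        split_ifs
        · exact pow_le_pow_left₀ (v.nonneg _) h6 _
        · rw [pow_zero]
          exact one_le_pow₀ (one_le_Mv _ _)
      have h6 : (∏ i : {i // i ∈ I}, Mv v (x i.1)) ^ E =
          (∏ i ∈ I.erase a.1.1, Mv v (x i)) ^ E * Mv v (x a.1.1) ^ E := by
        rw [hprodI, ← mul_pow, Finset.prod_erase_mul _ _ a.1.2]
      rw [h6]
      have hsup : 0 ≤ ⨆ j, v (eval x (f j)) := Real.iSup_nonneg fun j => v.nonneg _
      calc v (eval x (P a.1)) * v (x a.1.1) ^ (if a.2 then E else 0) * (∏ i, Mv v (x i)) ^ D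
          = v (eval x (P a.1)) * (∏ i, Mv v (x i)) ^ D * v (x a.1.1) ^ (if a.2 then E else 0) := by
            ring
        _ ≤ (B v * (∏ i ∈ I.erase a.1.1, Mv v (x i)) ^ E * ⨆ j, v (eval x (f j))) *
            Mv v (x a.1.1) ^ E := by
            refine mul_le_mul h4 h5 (pow_nonneg (v.nonneg _) _) ?_
            refine mul_nonneg (mul_nonneg hB0.le ?_) hsup
            exact pow_nonneg (Finset.prod_nonneg fun i _ => (Mv_pos _ _).le) _
        _ = _ := by ring
    unfold rhs
    rw [mul_min_of_nonneg _ _ hB0.le, mul_one]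
    refine min_le_min hB1 ?_
    rw [div_le_iff₀ hMI, mul_comm (B v), mul_assoc, div_mul_eq_mul_div, le_div_iff₀ hM]
    refine h3.trans (le_of_eq ?_)
    ring
  obtain ⟨c₁, -, hc₁⟩ := hC K σ D ι f hdeg
  obtain ⟨c₂, -, hc₂⟩ := hC K {i // i ∈ I} E _ f' hdf'
  refine ⟨E, {i // i ∈ I} × Bool, inferInstance, f', P k₀ * f j₀,
    PS (fun v => Real.log (B v)), hdf', ?_, mul_ne_zero (hP0 k₀) hj₀,
    PS_nonneg hB.fin (fun v => Real.log_nonneg (hB.one_le v)), ?_⟩
  · -- codimension
    intro Ω _ _ y hy hzero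
    have hcard : Fintype.card {i // i ∈ I} = I.card := Fintype.card_coe I
    rcases trb (K := K) (fun i : {i // i ∈ I} => y i 0) (by rw [hcard]; exact hI1) with h | ⟨i, hi⟩
    · exact h
    · exfalso
      rcases hv_ne E y hy i hi (em i) (hemn i) (hemi i) (Q i) (hQ0 i)
        (fun j => hdf i j E le_rfl) with h | h
      · apply h
        have h3 := hzero (i, false)
        simpa [hf'] using h3
      · apply h
        have h3 := hzero (i, true)
        simpa [hf'] using h3
  · intro x hx
    rw [map_mul] at hx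
    have hx1 := left_ne_zero_of_mul hx
    have hx2 := right_ne_zero_of_mul hx
    have he1 : ∃ j, eval (fun i : {i // i ∈ I} => x i.1) (f' j) ≠ 0 := by
      refine ⟨(k₀, false), ?_⟩
      rw [hev]
      simpa using hx1
    have he2 : ∃ j, eval x (f j) ≠ 0 := ⟨j₀, hx2⟩
    refine ⟨he1, he2, ?_⟩
    obtain ⟨-, hF1, hS1, hp1⟩ := hc₁ x he2
    obtain ⟨-, hF2, hS2, hp2⟩ := hc₂ (fun i : {i // i ∈ I} => x i.1) he1
    have h5 : PS (fun v => Real.log (rhs f' E v (fun i : {i // i ∈ I} => x i.1))) ≤
        PS (fun v => Real.log (B v) + Real.log (rhs f D v x)) := by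
      refine PS_mono hF2 (hB.fin.add hF1) fun v => ?_
      rw [← Real.log_mul (lt_of_lt_of_le one_pos (hB.one_le v)).ne' (hp1 v).1.ne']
      exact Real.log_le_log (hp2 v).1 (hloc v x)
    rw [PS_add hB.fin hF1, hS1, hS2] at h5
    linarith

end

end Pool.Agent.Helper61.HC.PRJ
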